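import Pool.Agent.Y329.CG.Stm

/-!
Project CG (MP_be1663_al): the right cocycle is trivial on relations.
-/

set_option autoImplicit false

open Set Filter Topology MeasureTheory

namespace Pool.Agent.Y429.CG.F

open Pool.Agent.Y329.CG

theorem pow_gt {e : Equiv.Perm ℝ} (he : StrictMono e) {y : ℝ} (h : y < e y) :
    ∀ n : ℕ, y < (e ^ (n + 1)) y
  | 0 => by simpa using h
  | n + 1 => by
    have ih := pow_gt he h n
    rw [pow_succ', Equiv.Perm.mul_apply]
    exact h.trans (he ih)

theorem zpow_ne {e : Equiv.Perm ℝ} (he : StrictMono e) {y : ℝ} (h : y < e y) {m : ℤ} (hm : m ≠ 0) :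
    (e ^ m) y ≠ y := by
  intro h'
  obtain ⟨n, rfl | rfl⟩ := m.eq_nat_or_neg
  · obtain ⟨k, rfl⟩ : ∃ k, n = k + 1 := Nat.exists_eq_succ_of_ne_zero (by rintro rfl; simp at hm)
    rw [zpow_natCast] at h'
    exact absurd h' (pow_gt he h k).ne'
  · obtain ⟨k, rfl⟩ : ∃ k, n = k + 1 := Nat.exists_eq_succ_of_ne_zero (by rintro rfl; simp at hm)
    rw [zpow_neg, zpow_natCast, Equiv.Perm.inv_eq_iff_eq] at h'
    exact absurd h'.symm (pow_gt he h k).ne'

theorem cont_rho {s : Fin 2 → Equiv.Perm ℝ} (hs : Pair0 s) (V : F2) : Continuous (rho s V) := by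
  induction V using FreeGroup.induction_on with
  | C1 => simpa using continuous_id
  | of i => rw [rho_of]; exact (hs.smooth i).continuous
  | inv_of i _ => rw [map_inv, rho_of]; exact (hs.smooth_symm i).continuous
  | mul a b ha hb =>
    have : (rho s (a * b) : ℝ → ℝ) = fun x => rho s a (rho s b x) := by
      funext x; exact rho_mul_apply s a b x
    rw [this]; exact ha.comp hb

theorem mono_rho {s : Fin 2 → Equiv.Perm ℝ} (hs : Pair0 s) (V : F2) : StrictMono (rho s V) := by
  induction V using FreeGroup.induction_on with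
  | C1 => intro a b h; simpa using h
  | of i => rw [rho_of]; exact hs.mono i
  | inv_of i _ =>
    rw [map_inv, rho_of]
    intro a b h
    by_contra h'
    have := (hs.mono i).monotone (not_lt.1 h')
    have e : ∀ z, s i ((s i)⁻¹ z) = z := fun z => (s i).apply_symm_apply z
    rw [e, e] at this
    exact absurd h (not_lt.2 this)
  | mul a b ha hb =>
    intro x y h
    rw [rho_mul_apply, rho_mul_apply]
    exact ha (hb h)

theorem rho_fix {s : Fin 2 → Equiv.Perm ℝ} {y : ℝ} (h : ∀ i, s i y = y) (V : F2) : rho s V y = y := by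
  induction V using FreeGroup.induction_on with
  | C1 => simp
  | of i => rw [rho_of]; exact h i
  | inv_of i _ => rw [map_inv, rho_of, Equiv.Perm.inv_eq_iff_eq]; exact (h i).symm
  | mul a b ha hb => rw [rho_mul_apply, hb, ha]

/-- the values of the cocycle at a point fixed by both maps lie in the subgroup generated by the
active letters; here at most the letter `0` is active -/
theorem coc_fix {s : Fin 2 → Equiv.Perm ℝ} {y : ℝ} (h : ∀ i, s i y = y) (h1 : y ∉ Dp 1) (V : F2) :
    ∃ m : ℤ, coc s Dp V y = FreeGroup.of 0 ^ m := by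
  induction V using FreeGroup.induction_on with
  | C1 => exact ⟨0, by simp⟩
  | of i =>
    by_cases hy : y ∈ Dp i
    · have : i = 0 := by
        fin_cases i
        · rfl
        · exact absurd hy h1
      subst this
      exact ⟨1, by rw [coc_of_mem s Dp hy, zpow_one]⟩
    · exact ⟨0, by rw [coc_of_notMem s Dp hy, zpow_zero]⟩
  | inv_of i hi =>
    obtain ⟨m, hm⟩ := hi
    refine ⟨-m, ?_⟩
    rw [coc_inv, rho_fix h, hm, zpow_neg]
  | mul a b ha hb =>
    obtain ⟨m, hm⟩ := ha
    obtain ⟨n, hn⟩ := hb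
    refine ⟨m + n, ?_⟩
    rw [coc_mul, rho_fix h, hm, hn, zpow_add]

theorem coc_none {s : Fin 2 → Equiv.Perm ℝ} {y : ℝ} (h : ∀ i, s i y = y) (h1 : ∀ i, y ∉ Dp i) (V : F2) :
    coc s Dp V y = 1 := by
  induction V using FreeGroup.induction_on with
  | C1 => simp
  | of i => exact coc_of_notMem s Dp (h1 i)
  | inv_of i hi => rw [coc_inv, rho_fix h, hi, inv_one]
  | mul a b ha hb => rw [coc_mul, rho_fix h, ha, hb, one_mul]

theorem lo0 : lo 0 = 0 := by simp [lo]
theorem lo1 : lo 1 = 1 := by simp [lo]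
theorem hi0 : hi 0 = 2 := by simp [hi]
theorem hi1 : hi 1 = 3 := by simp [hi]; norm_num

theorem done (hOK : S_OK) (hRC : S_RC) (hAN : S_AN) (hUC : S_UC) (hCG : S_CG) : S_F := by
  intro s hs W hW x
  have hs0 : Pair0 s := hs.toPair0
  have ok : Ok s Dp := (hOK s hs0).1
  by_contra hd
  obtain ⟨d, hdd⟩ : ∃ d, d = coc s Dp W x := ⟨_, rfl⟩
  rw [← hdd] at hd
  obtain ⟨Z, hZ⟩ : ∃ Z : Set ℝ, Z = {y | coc s Dp d y = d ∧ rho s d y = y} := ⟨_, rfl⟩
  -- Fact 1
  have f1 : ∀ y, coc s Dp W y = d → y ∈ Z := by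
    intro y hy
    rw [hZ]
    constructor
    · have := ok.coc_coc W y
      rwa [hy] at this
    · have := ok.rho_coc W y
      rw [hy, hW] at this
      simpa using this
  have hxZ : x ∈ Z := f1 x hdd.symm
  have hxr : ∀ᶠ y in 𝓝[≥] x, y ∈ Z := by
    filter_upwards [(hRC s hs0 W x).1] with y hy
    exact f1 y (hy.trans hdd.symm)
  -- Fact 2
  have f2 : ∀ y ∈ Z, 0 ≤ y ∧ y < 3 := by
    intro y hy
    by_contra hcon
    have hy' : y < 0 ∨ 3 ≤ y := by
      by_contra h'
      push Not at h'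
      exact hcon h'
    have hD : ∀ i, y ∉ Dp i := by
      intro i hi'
      have hi'' : lo i ≤ y ∧ y < hi i := hi'
      fin_cases i
      · simp only [Fin.zero_eta, lo0, hi0] at hi''
        rcases hy' with h | h <;> linarith [hi''.1, hi''.2]
      · simp only [Fin.mk_one, lo1, hi1] at hi''
        rcases hy' with h | h <;> linarith [hi''.1, hi''.2]
    have hfix : ∀ i, s i y = y := fun i => ok.out i y (hD i)
    rw [hZ] at hy
    exact hd (hy.1.symm.trans (coc_none hfix hD d))
  obtain ⟨A, hA⟩ : ∃ A : Set ℝ, A = {a | a ≤ x ∧ Icc a x ⊆ Z} := ⟨_, rfl⟩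
  have hxA : x ∈ A := by
    rw [hA]
    refine ⟨le_rfl, ?_⟩
    intro y hy
    rw [Icc_self, mem_singleton_iff] at hy
    rw [hy]; exact hxZ
  have hAb : BddBelow A := by
    refine ⟨0, ?_⟩
    intro a ha
    rw [hA] at ha
    exact (f2 a (ha.2 ⟨le_rfl, ha.1⟩)).1
  obtain ⟨l, hl⟩ : ∃ l, l = sInf A := ⟨_, rfl⟩
  have hlx : l ≤ x := hl ▸ csInf_le hAb hxA
  have hlZ' : ∀ y, l < y → y ≤ x → y ∈ Z := by
    intro y h1 h2
    rw [hl] at h1
    obtain ⟨a, ha, hay⟩ := exists_lt_of_csInf_lt ⟨x, hxA⟩ h1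
    rw [hA] at ha
    exact ha.2 ⟨hay.le, h2⟩
  have hlZ : l ∈ Z := by
    rcases hlx.eq_or_lt with h | h
    · rw [h]; exact hxZ
    · have h1 : ∀ᶠ y in 𝓝[>] l, y ∈ Z := by
        filter_upwards [Ioo_mem_nhdsGT h] with y hy
        exact hlZ' y hy.1 hy.2.le
      have h2 : ∀ᶠ y in 𝓝[>] l, coc s Dp d y = coc s Dp d l :=
        ((hRC s hs0 d l).1).filter_mono (nhdsWithin_mono l Ioi_subset_Ici_self)
      obtain ⟨y, hy1, hy2⟩ := (h1.and h2).exists
      rw [hZ] at hy1 ⊢
      refine ⟨hy2.symm.trans hy1.1, ?_⟩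
      have h3 : Tendsto (fun y => rho s d y) (𝓝[>] l) (𝓝 (rho s d l)) :=
        ((cont_rho hs0 d).tendsto l).mono_left nhdsWithin_le_nhds
      have h4 : Tendsto (fun y : ℝ => y) (𝓝[>] l) (𝓝 l) := tendsto_id.mono_left nhdsWithin_le_nhds
      have h5 : (fun y => rho s d y) =ᶠ[𝓝[>] l] fun y => y := by
        filter_upwards [h1] with y hy
        rw [hZ] at hy
        exact hy.2
      exact tendsto_nhds_unique (h3.congr' h5) h4
  have hlr : ∀ᶠ y in 𝓝[>] l, y ∈ Z := by
    rcases hlx.eq_or_lt with h | h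
    · rw [h]; exact hxr.filter_mono (nhdsWithin_mono x Ioi_subset_Ici_self)
    · filter_upwards [Ioo_mem_nhdsGT h] with y hy
      exact hlZ' y hy.1 hy.2.le
  have hln : ¬ ∀ᶠ y in 𝓝 l, y ∈ Z := by
    intro h
    obtain ⟨ε, hε, h'⟩ := Metric.eventually_nhds_iff.1 h
    have : l - ε / 2 ∈ A := by
      rw [hA]
      refine ⟨by linarith, ?_⟩
      intro y hy
      rcases lt_or_ge l y with h1 | h1
      · exact hlZ' y h1 hy.2
      · apply h'
        rw [Real.dist_eq, abs_lt]
        constructor <;> linarith [hy.1]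
    have h2 : l ≤ l - ε / 2 := by
      conv_lhs => rw [hl]
      exact csInf_le hAb this
    linarith
  have hl0 := (f2 l hlZ).1
  have hl3 := (f2 l hlZ).2
  have hcd : coc s Dp d l = d := by rw [hZ] at hlZ; exact hlZ.1
  have hrd : rho s d l = l := by rw [hZ] at hlZ; exact hlZ.2
  have fix0 : ∀ i, s i 0 = 0 := by
    intro i
    apply hs0.out
    intro h
    have h' : lo i < 0 ∧ 0 < hi i := h
    have : (0:ℝ) ≤ lo i := by unfold lo; positivity
    linarith [h'.1]
  rcases hl0.eq_or_lt with h0 | h0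
  · -- case 1
    subst h0
    obtain ⟨m, hm⟩ := coc_fix fix0 (by
      intro h
      have h' : lo 1 ≤ 0 ∧ 0 < hi 1 := h
      rw [lo1] at h'
      linarith [h'.1]) d
    rw [hcd] at hm
    have hm0 : m ≠ 0 := by
      rintro rfl
      exact hd (by simpa using hm)
    have h1 : ∀ᶠ y in 𝓝[>] (0:ℝ), y ∈ Ioo (0:ℝ) 2 := Ioo_mem_nhdsGT (by norm_num)
    obtain ⟨y, hy1, hy2⟩ := (hlr.and h1).exists
    rw [hZ] at hy1
    have h2 := hy1.2
    rw [hm, map_zpow, rho_of] at h2
    have h3 : y < s 0 y := hs0.gt 0 y (by rw [lo0, hi0]; exact hy2)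
    exact zpow_ne (hs0.mono 0) h3 hm0 h2
  · have hV0 : ∀ V : F2, rho s V l ≠ 0 := by
      intro V hV
      have h1 : rho s V⁻¹ (rho s V l) = l := rho_inv_apply s V l
      rw [hV, rho_fix fix0] at h1
      linarith
    by_cases hV : ∃ V : F2, rho s V l = 1
    · -- case 3
      obtain ⟨V, hV⟩ := hV
      obtain ⟨u, hu⟩ : ∃ u, u = coc s Dp V l := ⟨_, rfl⟩
      have hVi : rho s V⁻¹ 1 = l := by rw [← hV]; exact rho_inv_apply s V l
      have hW1 : rho s (V * d * V⁻¹) 1 = 1 := by
        rw [rho_mul_apply, rho_mul_apply, hVi, hrd, hV]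
      have hc1 : coc s Dp (V * d * V⁻¹) 1 = u * d * u⁻¹ := by
        rw [coc_mul, hVi, coc_mul, hrd, hcd, coc_inv, hVi, ← hu]
      have hW2 : rho s (FreeGroup.of 1) 1 = 1 := by
        rw [rho_of]
        apply hs0.out
        rw [lo1]
        exact fun h => lt_irrefl _ h.1
      have hc2 : coc s Dp (FreeGroup.of 1) 1 = FreeGroup.of 1 := by
        apply coc_of_mem
        show (1:ℝ) ∈ Ico (lo 1) (hi 1)
        rw [lo1, hi1]
        constructor <;> norm_num
      have hcomm := hUC ℝ s Dp ok hs.genp 1 (V * d * V⁻¹) (FreeGroup.of 1) hW1 hW2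
      rw [hc1, hc2] at hcomm
      obtain ⟨m, hm⟩ := hCG _ hcomm
      have hm0 : m ≠ 0 := by
        rintro rfl
        rw [zpow_zero] at hm
        have : u * d = u := by
          have := congrArg (· * u) hm
          simpa using this
        exact hd (by simpa using this)
      have hRCV : ∀ᶠ y in 𝓝[>] l, coc s Dp V y = u := by
        have := ((hRC s hs0 V l).1).filter_mono (nhdsWithin_mono l Ioi_subset_Ici_self)
        rw [← hu] at this
        exact this
      have hlt : ∀ᶠ y in 𝓝[>] l, rho s V y < 3 := by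
        have h3 : Tendsto (fun y => rho s V y) (𝓝[>] l) (𝓝 (rho s V l)) :=
          ((cont_rho hs0 V).tendsto l).mono_left nhdsWithin_le_nhds
        rw [hV] at h3
        exact h3.eventually (gt_mem_nhds (by norm_num))
      have hgt : ∀ᶠ y in 𝓝[>] l, 1 < rho s V y := by
        filter_upwards [self_mem_nhdsWithin] with y hy
        rw [← hV]
        exact mono_rho hs0 V hy
      obtain ⟨y, ⟨hy1, hy2⟩, hy3, hy4⟩ := ((hlr.and hRCV).and (hlt.and hgt)).exists
      rw [hZ] at hy1
      have hduy : u * d = FreeGroup.of 1 ^ m * u := by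
        rw [← hm]; group
      have hury : rho s u y = rho s V y := by
        rw [← hy2]; exact ok.rho_coc V y
      have h5 : rho s (u * d) y = rho s (FreeGroup.of 1 ^ m * u) y := by rw [hduy]
      rw [rho_mul_apply, rho_mul_apply, hy1.2, hury, map_zpow, rho_of] at h5
      have h6 : rho s V y < s 1 (rho s V y) := hs0.gt 1 _ (by rw [lo1, hi1]; exact ⟨hy4, hy3⟩)
      exact zpow_ne (hs0.mono 1) h6 hm0 h5.symm
    · -- case 2
      push Not at hV
      obtain ⟨han, hco⟩ := hAN s hs0 d l (fun V => ⟨hV0 V, hV V⟩) hcd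
      have h1 : ∃ᶠ y in 𝓝[≠] l, rho s d y = y := by
        have h2 : ∃ᶠ y in 𝓝[>] l, rho s d y = y := by
          apply Eventually.frequently
          filter_upwards [hlr] with y hy
          rw [hZ] at hy
          exact hy.2
        exact h2.filter_mono (nhdsWithin_mono l (fun y hy => ne_of_gt hy))
      have h2 := (han.frequently_eq_iff_eventually_eq analyticAt_id).1 h1
      apply hln
      filter_upwards [h2, hco] with y hy1 hy2
      rw [hZ]
      exact ⟨hy2, hy1⟩

end Pool.Agent.Y429.CG.F
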